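import Mathlib
import Pool.Agent.Helper259.AbsHt

/-!
# Solutions of bounded height of parametric systems of polynomial equations
-/

set_option autoImplicit false

namespace Pool.Agent.J4.H22.BddSol

open Pool.Agent.Helper259.AbsHt Pool.Agent.Helper259.HtPoly Filter

/-- the absolute logarithmic height of an algebraic number -/
noncomputable def h1 (z : Qbar) : ℝ := absLogHeight ![1, z]

lemma h1_nonneg (z : Qbar) : 0 ≤ h1 z := absLogHeight_nonneg _

lemma h1_zero : h1 0 = 0 := by
  have := absLogHeight_int ![1, 0] (by decide)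
  unfold h1
  have e : (fun i => ((![1, 0] i : ℤ) : Qbar)) = ![1, 0] := by
    funext i; fin_cases i <;> simp
  rw [e] at this
  rw [this]
  have : (⨆ i, |(![1, 0] : Fin 2 → ℤ) i|) = 1 := by
    apply le_antisymm
    · apply ciSup_le
      intro i
      fin_cases i <;> simp
    · exact le_ciSup_of_le (Set.finite_range _).bddAbove 0 (by simp)
  rw [this]
  simp

/-- height of a bilinear-type combination -/
lemma h1_bilin (A : Fin 2 × (Fin 2 × Fin 2) → Qbar) : ∃ C : ℝ, ∀ a b : Qbar,
    absLogHeight (fun j : Fin 2 => ∑ i : Fin 2 × Fin 2, A (j, i) * (![1, a] i.1 * ![1, b] i.2)) ≤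
      C + (h1 a + h1 b) := by
  refine ⟨Real.log (Nat.card (Fin 2 × Fin 2)) + absLogHeight A, fun a b => ?_⟩
  have h := absLogHeight_linear A (fun i : Fin 2 × Fin 2 => ![1, a] i.1 * ![1, b] i.2)
  have hs := absLogHeight_segre (x := ![1, a]) (y := ![1, b]) (by
    intro h; simpa using congrFun h 0) (by intro h; simpa using congrFun h 0)
  rw [hs] at h
  exact h

lemma h1_add : ∃ C : ℝ, ∀ a b : Qbar, h1 (a + b) ≤ C + (h1 a + h1 b) := by
  obtain ⟨C, hC⟩ := h1_bilin (fun t => if t.1 = 0 then (if t.2 = (0, 0) then 1 else 0) else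
    (if t.2 = (1, 0) then 1 else if t.2 = (0, 1) then 1 else 0))
  refine ⟨C, fun a b => ?_⟩
  have h := hC a b
  have e : (fun j : Fin 2 => ∑ i : Fin 2 × Fin 2, (if j = 0 then (if i = (0, 0) then (1 : Qbar) else 0) else
    (if i = (1, 0) then 1 else if i = (0, 1) then 1 else 0)) * (![1, a] i.1 * ![1, b] i.2)) = ![1, a + b] := by
    funext j
    fin_cases j
    · simp
    · simp [Fintype.sum_prod_type, Fin.sum_univ_two]
      ring
  simp only at h
  rw [e] at h
  exact h

lemma h1_mul : ∃ C : ℝ, ∀ a b : Qbar, h1 (a * b) ≤ C + (h1 a + h1 b) := by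
  obtain ⟨C, hC⟩ := h1_bilin (fun t => if t.1 = 0 then (if t.2 = (0, 0) then 1 else 0) else
    (if t.2 = (1, 1) then 1 else 0))
  refine ⟨C, fun a b => ?_⟩
  have h := hC a b
  have e : (fun j : Fin 2 => ∑ i : Fin 2 × Fin 2, (if j = 0 then (if i = (0, 0) then (1 : Qbar) else 0) else
    (if i = (1, 1) then 1 else 0)) * (![1, a] i.1 * ![1, b] i.2)) = ![1, a * b] := by
    funext j
    fin_cases j
    · simp
    · simp
  simp only at h
  rw [e] at h
  exact h

lemma h1_neg : ∃ C : ℝ, ∀ a : Qbar, h1 (-a) ≤ C + h1 a := by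
  obtain ⟨C, hC⟩ := h1_mul
  refine ⟨C + h1 (-1), fun a => ?_⟩
  have := hC (-1) a
  rw [neg_one_mul] at this
  linarith

lemma h1_inv (a : Qbar) : h1 a⁻¹ = h1 a := by
  rcases eq_or_ne a 0 with rfl | ha
  · simp
  unfold h1
  have e : ![1, a⁻¹] = a⁻¹ • (![a, 1] : Fin 2 → Qbar) := by
    funext i; fin_cases i <;> simp [ha]
  rw [e, absLogHeight_smul _ (inv_ne_zero ha)]
  apply le_antisymm
  · have := absLogHeight_comp_le ![1, 0] (![1, a] : Fin 2 → Qbar)
    have e2 : (![1, a] : Fin 2 → Qbar) ∘ ![1, 0] = ![a, 1] := by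
      funext i; fin_cases i <;> simp
    rwa [e2] at this
  · have := absLogHeight_comp_le ![1, 0] (![a, 1] : Fin 2 → Qbar)
    have e2 : (![a, 1] : Fin 2 → Qbar) ∘ ![1, 0] = ![1, a] := by
      funext i; fin_cases i <;> simp
    rwa [e2] at this

/-- height of a vector is at most the sum of the heights of the coordinates -/
lemma ht_le_sum {ι : Type*} [Fintype ι] (x : ι → Qbar) : absLogHeight x ≤ ∑ i, h1 (x i) :=
  absLogHeight_le_sum x

/-- roots of monic polynomials -/
lemma h1_root (d : ℕ) : ∃ C : ℝ, ∀ (a : Fin d → Qbar) (α : Qbar),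
    α ^ d + ∑ i : Fin d, a i * α ^ (i : ℕ) = 0 → h1 α ≤ C + ∑ i, h1 (a i) := by
  obtain ⟨C, hC⟩ := absLogHeight_root d
  refine ⟨C + h1 1, fun a α hα => ?_⟩
  set P : Polynomial Qbar := Polynomial.X ^ d + ∑ i : Fin d, Polynomial.C (a i) * Polynomial.X ^ (i : ℕ) with hP
  have hlt : (∑ i : Fin d, Polynomial.C (a i) * Polynomial.X ^ (i : ℕ)).degree < (d : WithBot ℕ) := by
    rw [Polynomial.degree_lt_iff_coeff_zero]
    intro m hm
    rw [Polynomial.finsetSum_coeff]
    refine Finset.sum_eq_zero fun i _ => ?_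
    rw [Polynomial.coeff_C_mul_X_pow, if_neg]
    have := i.2
    omega
  have hdeg : P.degree = (d : WithBot ℕ) := by
    rw [hP, Polynomial.degree_add_eq_left_of_degree_lt, Polynomial.degree_X_pow]
    rwa [Polynomial.degree_X_pow]
  have hP0 : P ≠ 0 := by
    intro h
    rw [h, Polynomial.degree_zero] at hdeg
    exact absurd hdeg (by simp)
  have hnd : P.natDegree ≤ d := by
    rw [Polynomial.natDegree_eq_of_degree_eq_some hdeg]
  have hroot : P.eval α = 0 := by
    rw [hP]
    simp only [Polynomial.eval_add, Polynomial.eval_pow, Polynomial.eval_X, Polynomial.eval_finsetSum,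
      Polynomial.eval_mul, Polynomial.eval_C]
    exact hα
  refine (hC P α hP0 hnd hroot).trans ?_
  have h2 := ht_le_sum (cv d P)
  have hco : ∀ i : Fin d, P.coeff i = a i := by
    intro i
    rw [hP, Polynomial.coeff_add, Polynomial.coeff_X_pow, if_neg (by have := i.2; omega), zero_add,
      Polynomial.finsetSum_coeff, Finset.sum_eq_single i]
    · rw [Polynomial.coeff_C_mul_X_pow, if_pos rfl]
    · intro j _ hj
      rw [Polynomial.coeff_C_mul_X_pow, if_neg]
      intro h
      exact hj (Fin.ext h.symm)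
    · intro h; exact absurd (Finset.mem_univ _) h
  have hlead : P.coeff d = 1 := by
    rw [hP, Polynomial.coeff_add, Polynomial.coeff_X_pow, if_pos rfl, Polynomial.coeff_eq_zero_of_degree_lt hlt,
      add_zero]
  rw [Fin.sum_univ_castSucc] at h2
  simp only [cv, Fin.val_castSucc, Fin.val_last, hlead, hco] at h2
  linarith

section field

variable (U : Ultrafilter ℕ) (w : ℕ → ℝ)

/-- a sequence whose height is at most linear in `w` -/
def Bd (f : ℕ → Qbar) : Prop := ∃ C : ℝ, ∀ n, h1 (f n) ≤ C * (1 + w n)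

variable {w} (hw : ∀ n, 0 ≤ w n)

include hw in
lemma Bd.of_const (C : ℝ) (f : ℕ → Qbar) (D : ℝ) (h : ∀ n, h1 (f n) ≤ D + C * (1 + w n)) : Bd w f := by
  refine ⟨|D| + C, fun n => (h n).trans ?_⟩
  have := hw n
  have h2 := le_abs_self D
  have h3 := abs_nonneg D
  nlinarith

include hw in
lemma bd_const (c : Qbar) : Bd w (fun _ => c) :=
  Bd.of_const hw 0 _ (h1 c) fun n => by simp

include hw in
lemma Bd.add {f g : ℕ → Qbar} (hf : Bd w f) (hg : Bd w g) : Bd w (f + g) := by
  obtain ⟨A, hA⟩ := hf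
  obtain ⟨B, hB⟩ := hg
  obtain ⟨C, hC⟩ := h1_add
  refine Bd.of_const hw (A + B) _ C fun n => ?_
  have h1 := hC (f n) (g n)
  have h2 := hA n
  have h3 := hB n
  simp only [Pi.add_apply]
  linarith

include hw in
lemma Bd.mul {f g : ℕ → Qbar} (hf : Bd w f) (hg : Bd w g) : Bd w (f * g) := by
  obtain ⟨A, hA⟩ := hf
  obtain ⟨B, hB⟩ := hg
  obtain ⟨C, hC⟩ := h1_mul
  refine Bd.of_const hw (A + B) _ C fun n => ?_
  have h1 := hC (f n) (g n)
  have h2 := hA n
  have h3 := hB n
  simp only [Pi.mul_apply]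
  linarith

include hw in
lemma Bd.neg {f : ℕ → Qbar} (hf : Bd w f) : Bd w (-f) := by
  obtain ⟨A, hA⟩ := hf
  obtain ⟨C, hC⟩ := h1_neg
  refine Bd.of_const hw A _ C fun n => ?_
  have h1 := hC (f n)
  have h2 := hA n
  simp only [Pi.neg_apply]
  linarith

lemma Bd.inv {f : ℕ → Qbar} (hf : Bd w f) : Bd w (fun n => (f n)⁻¹) := by
  obtain ⟨A, hA⟩ := hf
  exact ⟨A, fun n => by rw [h1_inv]; exact hA n⟩

/-- the subfield of the ultrapower given by the sequences whose height is at most linear in `w` -/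
def LL : Subfield (Germ (U : Filter ℕ) Qbar) where
  carrier := {z | ∃ f : ℕ → Qbar, (f : Germ (U : Filter ℕ) Qbar) = z ∧ Bd w f}
  mul_mem' := by
    rintro _ _ ⟨f, rfl, hf⟩ ⟨g, rfl, hg⟩
    exact ⟨f * g, rfl, hf.mul hw hg⟩
  one_mem' := ⟨fun _ => 1, rfl, bd_const hw 1⟩
  add_mem' := by
    rintro _ _ ⟨f, rfl, hf⟩ ⟨g, rfl, hg⟩
    exact ⟨f + g, rfl, hf.add hw hg⟩
  zero_mem' := ⟨fun _ => 0, rfl, bd_const hw 0⟩
  neg_mem' := by
    rintro _ ⟨f, rfl, hf⟩
    exact ⟨-f, rfl, hf.neg hw⟩
  inv_mem' := by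
    rintro _ ⟨f, rfl, hf⟩
    exact ⟨fun n => (f n)⁻¹, rfl, hf.inv⟩

lemma mem_LL {z : Germ (U : Filter ℕ) Qbar} :
    z ∈ LL U hw ↔ ∃ f : ℕ → Qbar, (f : Germ (U : Filter ℕ) Qbar) = z ∧ Bd w f := Iff.rfl

/-- the ring homomorphism from sequences to germs -/
noncomputable abbrev gm : (ℕ → Qbar) →+* Germ (U : Filter ℕ) Qbar := Germ.coeRingHom (U : Filter ℕ)

lemma gm_apply (f : ℕ → Qbar) : gm U f = (f : Germ (U : Filter ℕ) Qbar) := rfl

lemma gm_eq_zero {f : ℕ → Qbar} : gm U f = 0 ↔ ∀ᶠ n in (U : Filter ℕ), f n = 0 := by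
  rw [gm_apply]
  exact Germ.coe_eq

instance isAlgClosed_LL : IsAlgClosed (LL U hw) := by
  refine IsAlgClosed.of_exists_root _ fun p hp hirr => ?_
  set d := p.natDegree with hd
  have hdpos : 0 < d := Polynomial.natDegree_pos_iff_degree_pos.2 (Polynomial.degree_pos_of_irreducible hirr)
  -- representatives of the coefficients
  have hrep : ∀ i : Fin d, ∃ f : ℕ → Qbar, (f : Germ (U : Filter ℕ) Qbar) = (p.coeff i : LL U hw) ∧ Bd w f :=
    fun i => (p.coeff i).2
  choose a ha hab using hrep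
  have hroot : ∀ n, ∃ α : Qbar, α ^ d + ∑ i : Fin d, a i n * α ^ (i : ℕ) = 0 := by
    intro n
    set P : Polynomial Qbar := Polynomial.X ^ d + ∑ i : Fin d, Polynomial.C (a i n) * Polynomial.X ^ (i : ℕ) with hP
    have hlt : (∑ i : Fin d, Polynomial.C (a i n) * Polynomial.X ^ (i : ℕ)).degree < (d : WithBot ℕ) := by
      rw [Polynomial.degree_lt_iff_coeff_zero]
      intro m hm
      rw [Polynomial.finsetSum_coeff]
      refine Finset.sum_eq_zero fun i _ => ?_
      rw [Polynomial.coeff_C_mul_X_pow, if_neg]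
      have := i.2
      omega
    have hdeg : P.degree = (d : WithBot ℕ) := by
      rw [hP, Polynomial.degree_add_eq_left_of_degree_lt, Polynomial.degree_X_pow]
      rwa [Polynomial.degree_X_pow]
    obtain ⟨α, hα⟩ := IsAlgClosed.exists_root P (by rw [hdeg]; exact_mod_cast hdpos.ne')
    refine ⟨α, ?_⟩
    have : P.eval α = 0 := hα
    rw [hP] at this
    simpa only [Polynomial.eval_add, Polynomial.eval_pow, Polynomial.eval_X, Polynomial.eval_finsetSum,
      Polynomial.eval_mul, Polynomial.eval_C] using this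
  choose α hα using hroot
  have hαb : Bd w α := by
    obtain ⟨C, hC⟩ := h1_root d
    choose B hB using hab
    refine Bd.of_const hw (∑ i, B i) _ C fun n => ?_
    refine (hC (fun i => a i n) (α n) (hα n)).trans ?_
    rw [Finset.sum_mul]
    gcongr with i
    exact hB i n
  refine ⟨⟨gm U α, α, rfl, hαb⟩, ?_⟩
  apply Subtype.ext
  rw [Polynomial.eval_eq_sum_range, Finset.sum_range_succ, ← hd, show p.coeff d = 1 from hp, one_mul]
  push_cast
  have e1 : ∑ i ∈ Finset.range d, ((p.coeff i : LL U hw) : Germ (U : Filter ℕ) Qbar) * gm U α ^ i =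
      gm U (∑ i : Fin d, a i * α ^ (i : ℕ)) := by
    rw [← Fin.sum_univ_eq_sum_range (fun i => ((p.coeff i : LL U hw) : Germ (U : Filter ℕ) Qbar) * gm U α ^ i) d,
      map_sum]
    refine Finset.sum_congr rfl fun i _ => ?_
    rw [map_mul, map_pow, gm_apply U (a i), ha i]
  rw [e1, ← map_pow, ← map_add, gm_eq_zero]
  refine Eventually.of_forall fun n => ?_
  have := hα n
  simp only [Pi.add_apply, Pi.pow_apply, Finset.sum_apply, Pi.mul_apply]
  rw [add_comm]
  exact this

end field

open MvPolynomial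

/-- **Solutions of bounded height.** A finite system `E` of polynomial equations over `Qbar` with parameters
`y` and unknowns `x`: if it has a solution for the parameters `y`, then it has one whose coordinates have
height at most `C (1 + ∑ h (y_j))`, with a constant `C` that depends only on `E`. -/
theorem bounded_solutions {ρ τ : Type} [Fintype ρ] [Finite τ] (E : Finset (MvPolynomial (ρ ⊕ τ) Qbar)) :
    ∃ C : ℝ, ∀ y : ρ → Qbar, (∃ x : τ → Qbar, ∀ e ∈ E, eval (Sum.elim y x) e = 0) →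
      ∃ x : τ → Qbar, (∀ e ∈ E, eval (Sum.elim y x) e = 0) ∧
        ∀ i, h1 (x i) ≤ C * (1 + ∑ j, h1 (y j)) := by
  by_contra hcon
  push Not at hcon
  have hn : ∀ n : ℕ, ∃ y : ρ → Qbar, (∃ x : τ → Qbar, ∀ e ∈ E, eval (Sum.elim y x) e = 0) ∧
      ∀ x : τ → Qbar, (∀ e ∈ E, eval (Sum.elim y x) e = 0) →
        ∃ i, (n : ℝ) * (1 + ∑ j, h1 (y j)) < h1 (x i) := fun n => hcon n
  choose y hy hyb using hn
  choose x hx using hy
  set U : Ultrafilter ℕ := hyperfilter ℕ with hU
  set w : ℕ → ℝ := fun n => ∑ j, h1 (y n j) with hwdef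
  have hw : ∀ n, 0 ≤ w n := fun n => Finset.sum_nonneg fun j _ => h1_nonneg _
  -- the field `L`
  let L := LL U hw
  have hyL : ∀ j, gm U (fun n => y n j) ∈ L := by
    intro j
    refine ⟨fun n => y n j, rfl, 1, fun n => ?_⟩
    rw [one_mul]
    have : h1 (y n j) ≤ w n := Finset.single_le_sum (f := fun j => h1 (y n j)) (fun j _ => h1_nonneg _)
      (Finset.mem_univ j)
    linarith
  have hcL : ∀ c : Qbar, gm U (fun _ => c) ∈ L := fun c => ⟨fun _ => c, rfl, bd_const hw c⟩
  let c : Qbar →+* L := RingHom.codRestrict ((gm U).comp (Pi.constRingHom ℕ Qbar)) L hcL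
  let yL : ρ → L := fun j => ⟨gm U (fun n => y n j), hyL j⟩
  -- the polynomials over `L`
  let P : MvPolynomial (ρ ⊕ τ) Qbar → MvPolynomial τ L := fun e =>
    eval₂ ((C : L →+* MvPolynomial τ L).comp c) (Sum.elim (fun j => C (yL j)) X) e
  -- evaluation
  have key : ∀ (z : ℕ → τ → Qbar) (e : MvPolynomial (ρ ⊕ τ) Qbar),
      eval₂ L.subtype (fun i => gm U (fun n => z n i)) (P e) =
        gm U (fun n => eval (Sum.elim (y n) (z n)) e) := by
    intro z e
    have h1 : (fun n => eval (Sum.elim (y n) (z n)) e) =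
        eval₂ (Pi.constRingHom ℕ Qbar) (fun s n => Sum.elim (y n) (z n) s) e := by
      funext n
      have := MvPolynomial.hom_eval₂ e (Pi.constRingHom ℕ Qbar) (Pi.evalRingHom (fun _ => Qbar) n)
        (fun s n => Sum.elim (y n) (z n) s)
      rw [Pi.evalRingHom_apply] at this
      rw [this]
      rfl
    rw [h1, MvPolynomial.hom_eval₂]
    have h2 := MvPolynomial.hom_eval₂ e ((C : L →+* MvPolynomial τ L).comp c)
      (eval₂Hom L.subtype (fun i => gm U (fun n => z n i)))
      (Sum.elim (fun j => C (yL j)) X)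
    rw [coe_eval₂Hom] at h2
    change eval₂ L.subtype (fun i => gm U (fun n => z n i)) (eval₂ ((C : L →+* MvPolynomial τ L).comp c)
      (Sum.elim (fun j => C (yL j)) X) e) = _
    rw [h2]
    congr 1
    · ext a
      simp [c]
    · funext s
      rcases s with j | i
      · simp [yL]
      · simp
  -- the ideal
  let I : Ideal (MvPolynomial τ L) := Ideal.span (P '' (E : Set (MvPolynomial (ρ ⊕ τ) Qbar)))
  have hI : I ≠ ⊤ := by
    intro hI
    have hle : I ≤ RingHom.ker (eval₂Hom L.subtype (fun i => gm U (fun n => x n i))) := by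
      rw [Ideal.span_le]
      rintro _ ⟨e, he, rfl⟩
      rw [SetLike.mem_coe, RingHom.mem_ker, coe_eval₂Hom, key, gm_eq_zero]
      exact Eventually.of_forall fun n => hx n e he
    rw [hI, top_le_iff] at hle
    exact RingHom.ker_ne_top _ hle
  -- Nullstellensatz
  have hz : (zeroLocus L I).Nonempty := by
    rw [Set.nonempty_iff_ne_empty]
    intro h0
    have h1 := vanishingIdeal_zeroLocus_eq_radical (K := L) I
    rw [h0, vanishingIdeal_empty] at h1
    exact hI (Ideal.radical_eq_top.1 h1.symm)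
  obtain ⟨z, hz⟩ := hz
  have hzrep : ∀ i, ∃ f : ℕ → Qbar, (f : Germ (U : Filter ℕ) Qbar) = z i ∧ Bd w f := fun i => (z i).2
  choose f hf hfb using hzrep
  choose B hB using hfb
  have hev : ∀ e ∈ E, ∀ᶠ n in (U : Filter ℕ), eval (Sum.elim (y n) (fun i => f i n)) e = 0 := by
    intro e he
    rw [← gm_eq_zero U, ← key]
    have h1 : aeval z (P e) = 0 := by
      rw [mem_zeroLocus_iff] at hz
      exact hz (P e) (Ideal.subset_span ⟨e, he, rfl⟩)
    rw [aeval_def] at h1
    have h2 := congrArg L.subtype h1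
    rw [hom_eval₂, map_zero] at h2
    have h3 : (fun i => gm U (fun n => f i n)) = L.subtype ∘ z := by
      funext i
      exact hf i
    change eval₂ L.subtype (fun i => gm U (fun n => f i n)) (P e) = 0
    rw [h3]
    exact h2
  have hall : ∀ᶠ n in (U : Filter ℕ), ∀ e ∈ E, eval (Sum.elim (y n) (fun i => f i n)) e = 0 := by
    rw [Filter.eventually_all_finset]
    exact hev
  cases nonempty_fintype τ
  have hlarge : ∀ᶠ n : ℕ in (U : Filter ℕ), ∑ i, |B i| < (n : ℝ) := by
    have h1 : (U : Filter ℕ) ≤ atTop := Nat.hyperfilter_le_atTop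
    exact h1 (tendsto_natCast_atTop_atTop.eventually_gt_atTop _)
  obtain ⟨n, hn1, hn2⟩ := (hall.and hlarge).exists
  obtain ⟨i, hi⟩ := hyb n _ hn1
  have h1 := hB i n
  have h2 : B i ≤ ∑ i, |B i| := (le_abs_self _).trans
    (Finset.single_le_sum (f := fun i => |B i|) (fun i _ => abs_nonneg _) (Finset.mem_univ i))
  have h3 : (0 : ℝ) < 1 + w n := by have := hw n; linarith
  have h4 : B i * (1 + w n) < n * (1 + w n) := by
    apply mul_lt_mul_of_pos_right _ h3
    linarith
  exact absurd (lt_of_lt_of_le hi h1) (not_lt.2 h4.le)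

end Pool.Agent.J4.H22.BddSol
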