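import Mathlib
import Pool.Agent.J4.H22.BddSol

/-!
# Heights on quasi-projective varieties over the algebraic numbers, and orbits
-/

set_option autoImplicit false

namespace Pool.Agent.J4.H22.QP

open MvPolynomial Pool.Agent.Helper259.AbsHt Pool.Agent.J4.H22.BddSol

/-- The (closed) points of the projective space of dimension `N` over the field of algebraic
numbers. -/
abbrev PP (N : ℕ) : Type := Projectivization Qbar (Fin (N + 1) → Qbar)

/-- The absolute logarithmic Weil height on projective space. -/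
noncomputable def ht {N : ℕ} (p : PP N) : ℝ := absLogHeight p.rep

/-- `Z` is a Zariski closed subset of projective space: the set of the common zeros of a set of
homogeneous polynomials. -/
def IsZariskiClosed {N : ℕ} (Z : Set (PP N)) : Prop :=
  ∃ S : Set (MvPolynomial (Fin (N + 1)) Qbar), (∀ f ∈ S, ∃ d, f.IsHomogeneous d) ∧
    Z = {p | ∀ f ∈ S, eval p.rep f = 0}

/-- `X` is (the set of the points of) a quasi-projective variety: a locally closed subset of
projective space. -/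
def IsQuasiProjective {N : ℕ} (X : Set (PP N)) : Prop :=
  ∃ Z W : Set (PP N), IsZariskiClosed Z ∧ IsZariskiClosed W ∧ X = Z \ W

/-- `φ : X → ℙ ^ M` is a morphism (a regular map): every point of `X` has an open neighbourhood
`X \ W` in which `φ` is given by homogeneous polynomials `F_0, …, F_M` of the same degree without
common zero there. -/
def IsRegular {N M : ℕ} {X : Set (PP N)} (φ : X → PP M) : Prop :=
  ∀ x : X, ∃ W : Set (PP N), IsZariskiClosed W ∧ x.1 ∉ W ∧
    ∃ (d : ℕ) (F : Fin (M + 1) → MvPolynomial (Fin (N + 1)) Qbar), (∀ j, (F j).IsHomogeneous d) ∧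
      ∀ y : X, y.1 ∉ W → ∃ h : (fun j => eval y.1.rep (F j)) ≠ 0, φ y = Projectivization.mk Qbar _ h

/-- `φ : X → ℙ ^ M` is a projective embedding: an isomorphism of `X` with a locally closed subset
of `ℙ ^ M`. -/
def IsEmbedding {N M : ℕ} {X : Set (PP N)} (φ : X → PP M) : Prop :=
  IsRegular φ ∧ IsQuasiProjective (Set.range φ) ∧
    ∃ ψ : Set.range φ → PP N, IsRegular ψ ∧ ∀ x : X, ψ ⟨φ x, x, rfl⟩ = x

/-- `h` is an ample height on `X`: up to a bounded function and a positive multiple, it is the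
pullback of the absolute logarithmic height under a projective embedding. -/
def IsAmpleHeight {N : ℕ} (X : Set (PP N)) (h : X → ℝ) : Prop :=
  ∃ (M : ℕ) (φ : X → PP M), IsEmbedding φ ∧ ∃ c : ℝ, 0 < c ∧ ∃ C : ℝ, ∀ x, |h x - c * ht (φ x)| ≤ C

section basic

variable {N M : ℕ}

lemma eval_smul {σ : Type*} {f : MvPolynomial σ Qbar} {d : ℕ} (hf : f.IsHomogeneous d) (a : Qbar)
    (v : σ → Qbar) : eval (a • v) f = a ^ d * eval v f := by
  rw [eval_eq, eval_eq, Finset.mul_sum]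
  refine Finset.sum_congr rfl fun s hs => ?_
  have hdeg : s.degree = d := by
    have := hf (mem_support_iff.mp hs)
    rw [← this, Finsupp.degree_eq_weight_one]
    rfl
  simp only [Pi.smul_apply, smul_eq_mul, mul_pow, Finset.prod_mul_distrib, Finset.prod_pow_eq_pow_sum]
  rw [show ∑ i ∈ s.support, s i = d from hdeg]
  ring

lemma ht_mk {v : Fin (N + 1) → Qbar} (hv : v ≠ 0) : ht (Projectivization.mk Qbar v hv) = absLogHeight v := by
  obtain ⟨a, ha⟩ := Projectivization.exists_smul_eq_mk_rep Qbar v hv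
  unfold ht
  rw [← ha]
  exact absLogHeight_smul v a.ne_zero

lemma ht_nonneg (p : PP N) : 0 ≤ ht p := absLogHeight_nonneg _

lemma eval_mk_rep {f : MvPolynomial (Fin (N + 1)) Qbar} {d : ℕ} (hf : f.IsHomogeneous d)
    {v : Fin (N + 1) → Qbar} (hv : v ≠ 0) :
    ∃ a : Qbar, a ≠ 0 ∧ (Projectivization.mk Qbar v hv).rep = a • v ∧
      eval (Projectivization.mk Qbar v hv).rep f = a ^ d * eval v f := by
  obtain ⟨a, ha⟩ := Projectivization.exists_smul_eq_mk_rep Qbar v hv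
  refine ⟨a, a.ne_zero, ha.symm, ?_⟩
  rw [← ha]
  exact eval_smul hf a v

lemma eval_mk_eq_zero {f : MvPolynomial (Fin (N + 1)) Qbar} {d : ℕ} (hf : f.IsHomogeneous d)
    {v : Fin (N + 1) → Qbar} (hv : v ≠ 0) :
    eval (Projectivization.mk Qbar v hv).rep f = 0 ↔ eval v f = 0 := by
  obtain ⟨a, ha, -, h⟩ := eval_mk_rep hf hv
  rw [h, mul_eq_zero]
  constructor
  · rintro (h | h)
    · exact absurd h (pow_ne_zero _ ha)
    · exact h
  · exact Or.inr

/-- a finite subset that generates the same ideal -/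
lemma exists_finset (S : Set (MvPolynomial (Fin (N + 1)) Qbar)) :
    ∃ T : Finset (MvPolynomial (Fin (N + 1)) Qbar), (T : Set _) ⊆ S ∧
      ∀ v : Fin (N + 1) → Qbar, (∀ f ∈ T, eval v f = 0) → ∀ f ∈ S, eval v f = 0 := by
  obtain ⟨T, hTS, hT⟩ := (Submodule.fg_span_iff_fg_span_finset_subset S).1
    (IsNoetherian.noetherian (Submodule.span (MvPolynomial (Fin (N + 1)) Qbar) S))
  refine ⟨T, hTS, fun v hv f hf => ?_⟩
  have h1 : f ∈ Ideal.span (T : Set (MvPolynomial (Fin (N + 1)) Qbar)) := by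
    have : f ∈ Submodule.span (MvPolynomial (Fin (N + 1)) Qbar) S := Submodule.subset_span hf
    rw [hT] at this
    exact this
  have h2 : Ideal.span (T : Set (MvPolynomial (Fin (N + 1)) Qbar)) ≤ RingHom.ker (eval v) := by
    rw [Ideal.span_le]
    intro g hg
    exact hv g hg
  exact h2 h1

/-- finitely many charts -/
lemma exists_charts {X : Set (PP N)} {φ : X → PP M} (hφ : IsRegular φ) :
    ∃ (T : Finset X) (g : X → MvPolynomial (Fin (N + 1)) Qbar) (e d : X → ℕ)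
      (F : X → Fin (M + 1) → MvPolynomial (Fin (N + 1)) Qbar),
      (∀ x, (g x).IsHomogeneous (e x)) ∧ (∀ x j, (F x j).IsHomogeneous (d x)) ∧
      (∀ x y : X, eval y.1.rep (g x) ≠ 0 →
        ∃ h : (fun j => eval y.1.rep (F x j)) ≠ 0, φ y = Projectivization.mk Qbar _ h) ∧
      ∀ y : X, ∃ x ∈ T, eval y.1.rep (g x) ≠ 0 := by
  classical
  have h1 : ∀ x : X, ∃ g : MvPolynomial (Fin (N + 1)) Qbar, ∃ e d : ℕ,
      ∃ F : Fin (M + 1) → MvPolynomial (Fin (N + 1)) Qbar, g.IsHomogeneous e ∧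
      (∀ j, (F j).IsHomogeneous d) ∧ eval x.1.rep g ≠ 0 ∧ ∀ y : X, eval y.1.rep g ≠ 0 →
        ∃ h : (fun j => eval y.1.rep (F j)) ≠ 0, φ y = Projectivization.mk Qbar _ h := by
    intro x
    obtain ⟨W, ⟨S, hS, rfl⟩, hx, d, F, hF, hφF⟩ := hφ x
    simp only [Set.mem_ofPred_eq, not_forall] at hx
    obtain ⟨g, hg, hgx⟩ := hx
    obtain ⟨e, he⟩ := hS g hg
    refine ⟨g, e, d, F, he, hF, hgx, fun y hy => hφF y fun hyW => hy (hyW g hg)⟩
  choose g e d F hg hF hgx hφF using h1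
  obtain ⟨T, hT, hTv⟩ := exists_finset (Set.range g)
  choose r hr using fun f : T => hT f.2
  refine ⟨T.attach.image r, g, e, d, F, hg, hF, hφF, fun y => ?_⟩
  by_contra hcon
  push Not at hcon
  refine hgx y (hTv y.1.rep (fun f hf => ?_) (g y) ⟨y, rfl⟩)
  have := hcon _ (Finset.mem_image_of_mem r (Finset.mem_attach T ⟨f, hf⟩))
  rwa [hr ⟨f, hf⟩] at this

/-- the height of the image under a regular map -/
theorem ht_le {X : Set (PP N)} {φ : X → PP M} (hφ : IsRegular φ) :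
    ∃ C : ℝ, 0 ≤ C ∧ ∀ x : X, ht (φ x) ≤ C * (1 + ht x.1) := by
  classical
  obtain ⟨T, g, e, d, F, hg, hF, hφF, hT⟩ := exists_charts hφ
  choose C hC using fun x => absLogHeight_eval (d x) (F x) (hF x)
  refine ⟨∑ x ∈ T, (|C x| + d x), Finset.sum_nonneg fun x _ => by positivity, fun y => ?_⟩
  obtain ⟨x, hxT, hx⟩ := hT y
  obtain ⟨h, hφy⟩ := hφF x y hx
  rw [hφy, ht_mk]
  have h1 := hC x y.1.rep
  have h2 : |C x| + d x ≤ ∑ x ∈ T, (|C x| + (d x : ℝ)) :=
    Finset.single_le_sum (f := fun x => |C x| + (d x : ℝ)) (fun x _ => by positivity) hxT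
  have h3 : 0 ≤ ht y.1 := ht_nonneg _
  have h4 := le_abs_self (C x)
  have h5 : (0 : ℝ) ≤ d x := by positivity
  have h6 := abs_nonneg (C x)
  calc _ ≤ C x + d x * ht y.1 := h1
    _ ≤ (|C x| + d x) * (1 + ht y.1) := by nlinarith
    _ ≤ _ := mul_le_mul_of_nonneg_right h2 (by linarith)

/-- **Points of small height in the fibres of a morphism of quasi-projective varieties.** -/
theorem exists_small {X : Set (PP N)} (hX : IsQuasiProjective X) {φ : X → PP M} (hφ : IsRegular φ) :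
    ∃ C : ℝ, 0 ≤ C ∧ ∀ x : X, ∃ x' : X, φ x' = φ x ∧ ht x'.1 ≤ C * (1 + ht (φ x)) := by
  classical
  obtain ⟨T, g, e, d, F, hg, hF, hφF, hT⟩ := exists_charts hφ
  obtain ⟨Z, W, ⟨SZ, hSZ, hZ⟩, ⟨SW, hSW, hW⟩, hXeq⟩ := hX
  obtain ⟨TZ, hTZ, hTZv⟩ := exists_finset SZ
  obtain ⟨TW, hTW, hTWv⟩ := exists_finset SW
  have hmemX : ∀ p : PP N, p ∈ X ↔ (∀ f ∈ SZ, eval p.rep f = 0) ∧ ¬ ∀ f ∈ SW, eval p.rep f = 0 := by
    intro p
    rw [hXeq, hZ, hW]
    rfl
  -- the systems
  let rn : MvPolynomial (Fin (N + 1)) Qbar → MvPolynomial (Fin (M + 1) ⊕ Option (Fin (N + 1))) Qbar :=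
    fun f => rename (fun i => Sum.inr (some i)) f
  let E : X → MvPolynomial (Fin (N + 1)) Qbar → Fin (N + 1) → Fin (M + 1) →
      Finset (MvPolynomial (Fin (M + 1) ⊕ Option (Fin (N + 1))) Qbar) := fun x q i₀ j₀ =>
    TZ.image rn ∪ {MvPolynomial.X (Sum.inr (some i₀)) - 1} ∪
      Finset.univ.image (fun j => rn (F x j) - rn (F x j₀) * MvPolynomial.X (Sum.inl j)) ∪
      {MvPolynomial.X (Sum.inr none) * rn (q * g x * F x j₀) - 1}
  have hev : ∀ (y : Fin (M + 1) → Qbar) (v : Option (Fin (N + 1)) → Qbar)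
      (f : MvPolynomial (Fin (N + 1)) Qbar),
      eval (Sum.elim y v) (rn f) = eval (fun i => v (some i)) f := by
    intro y v f
    simp only [rn, eval_rename]
    rfl
  have hE : ∀ x q i₀ j₀ (y : Fin (M + 1) → Qbar) (v : Option (Fin (N + 1)) → Qbar),
      (∀ f ∈ E x q i₀ j₀, eval (Sum.elim y v) f = 0) ↔
        (∀ f ∈ TZ, eval (fun i => v (some i)) f = 0) ∧ v (some i₀) = 1 ∧
        (∀ j, eval (fun i => v (some i)) (F x j) = eval (fun i => v (some i)) (F x j₀) * y j) ∧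
        v none * (eval (fun i => v (some i)) q * eval (fun i => v (some i)) (g x) *
          eval (fun i => v (some i)) (F x j₀)) = 1 := by
    intro x q i₀ j₀ y v
    simp only [E, Finset.mem_union, Finset.mem_image, Finset.mem_singleton, Finset.mem_univ, true_and]
    constructor
    · intro h
      refine ⟨fun f hf => ?_, ?_, fun j => ?_, ?_⟩
      · rw [← hev y v]
        exact h _ (Or.inl (Or.inl (Or.inl ⟨f, hf, rfl⟩)))
      · have := h _ (Or.inl (Or.inl (Or.inr rfl)))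
        simpa [sub_eq_zero] using this
      · have := h _ (Or.inl (Or.inr ⟨j, rfl⟩))
        rw [map_sub, map_mul, hev, hev, eval_X, sub_eq_zero] at this
        exact this
      · have := h _ (Or.inr rfl)
        rw [map_sub, map_mul, hev, eval_X, map_one, sub_eq_zero, map_mul, map_mul] at this
        exact this
    · rintro ⟨h1, h2, h3, h4⟩ f (((⟨f, hf, rfl⟩ | rfl) | ⟨j, rfl⟩) | rfl)
      · rw [hev]
        exact h1 f hf
      · simp [h2]
      · rw [map_sub, map_mul, hev, hev, eval_X, sub_eq_zero]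
        exact h3 j
      · rw [map_sub, map_mul, hev, eval_X, map_one, sub_eq_zero, map_mul, map_mul]
        exact h4
  choose C hC using fun x q i₀ j₀ => bounded_solutions (E x q i₀ j₀)
  refine ⟨∑ x ∈ T, ∑ q ∈ TW, ∑ i₀, ∑ j₀, ((N + 1 : ℕ) : ℝ) * |C x q i₀ j₀| * ((M + 1 : ℕ) : ℝ), ?_,
    fun p => ?_⟩
  · refine Finset.sum_nonneg fun x _ => Finset.sum_nonneg fun q _ => Finset.sum_nonneg fun i _ =>
      Finset.sum_nonneg fun j _ => by positivity
  obtain ⟨x, hxT, hx⟩ := hT p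
  obtain ⟨hFp, hφp⟩ := hφF x p hx
  obtain ⟨q, hqT, hq⟩ : ∃ q ∈ TW, eval p.1.rep q ≠ 0 := by
    by_contra hcon
    push Not at hcon
    exact ((hmemX _).1 p.2).2 (hTWv _ hcon)
  obtain ⟨i₀, hi₀⟩ : ∃ i, p.1.rep i ≠ 0 := Function.ne_iff.1 p.1.rep_nonzero
  obtain ⟨j₀, hj₀⟩ : ∃ j, eval p.1.rep (F x j) ≠ 0 := Function.ne_iff.1 hFp
  obtain ⟨dq, hdq⟩ := hSW q (hTW hqT)
  -- the normalized representative
  set a : Qbar := (p.1.rep i₀)⁻¹ with ha
  have ha0 : a ≠ 0 := inv_ne_zero hi₀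
  set v : Fin (N + 1) → Qbar := a • p.1.rep with hv
  set y : Fin (M + 1) → Qbar := fun j => (eval p.1.rep (F x j₀))⁻¹ * eval p.1.rep (F x j) with hy
  have hyj₀ : y j₀ = 1 := by rw [hy]; exact inv_mul_cancel₀ hj₀
  have hvne : v ≠ 0 := by
    intro h
    have := congrFun h i₀
    rw [hv, Pi.smul_apply, smul_eq_mul, ha, inv_mul_cancel₀ hi₀] at this
    exact one_ne_zero this
  have hsol : ∃ z : Option (Fin (N + 1)) → Qbar, ∀ f ∈ E x q i₀ j₀, eval (Sum.elim y z) f = 0 := by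
    refine ⟨fun o => o.elim (eval v q * eval v (g x) * eval v (F x j₀))⁻¹ v, ?_⟩
    rw [hE]
    refine ⟨fun f hf => ?_, ?_, fun j => ?_, ?_⟩
    · change eval v f = 0
      obtain ⟨df, hdf⟩ := hSZ f (hTZ hf)
      rw [hv, eval_smul hdf, ((hmemX _).1 p.2).1 f (hTZ hf), mul_zero]
    · change v i₀ = 1
      rw [hv, Pi.smul_apply, smul_eq_mul, ha, inv_mul_cancel₀ hi₀]
    · change eval v (F x j) = eval v (F x j₀) * y j
      rw [hv, eval_smul (hF x j), eval_smul (hF x j₀), hy]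
      field_simp
    · change (eval v q * eval v (g x) * eval v (F x j₀))⁻¹ * (eval v q * eval v (g x) * eval v (F x j₀)) = 1
      apply inv_mul_cancel₀
      rw [hv, eval_smul hdq, eval_smul (hg x), eval_smul (hF x j₀)]
      simp only [ne_eq, mul_eq_zero, pow_eq_zero_iff', ha0, false_and, false_or]
      tauto
  obtain ⟨z, hz, hzC⟩ := hC x q i₀ j₀ y hsol
  rw [hE] at hz
  obtain ⟨hz1, hz2, hz3, hz4⟩ := hz
  set v' : Fin (N + 1) → Qbar := fun i => z (some i) with hv'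
  have hv'0 : v' ≠ 0 := by
    intro h
    have := congrFun h i₀
    rw [hv'] at this
    simp only [hz2, Pi.zero_apply] at this
    exact one_ne_zero this
  have hprod : eval v' q * eval v' (g x) * eval v' (F x j₀) ≠ 0 := by
    intro h
    rw [h, mul_zero] at hz4
    exact zero_ne_one hz4
  have hq' : eval v' q ≠ 0 := fun h => hprod (by rw [h, zero_mul, zero_mul])
  have hg' : eval v' (g x) ≠ 0 := fun h => hprod (by rw [h, mul_zero, zero_mul])
  have hF' : eval v' (F x j₀) ≠ 0 := fun h => hprod (by rw [h, mul_zero])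
  have hmem : Projectivization.mk Qbar v' hv'0 ∈ X := by
    refine (hmemX _).2 ⟨fun f hf => ?_, fun h => ?_⟩
    · obtain ⟨df, hdf⟩ := hSZ f hf
      rw [eval_mk_eq_zero hdf]
      exact hTZv v' hz1 f hf
    · exact hq' ((eval_mk_eq_zero hdq hv'0).1 (h q (hTW hqT)))
  refine ⟨⟨_, hmem⟩, ?_, ?_⟩
  · obtain ⟨hne, hφ'⟩ := hφF x ⟨_, hmem⟩ (by
      change ¬ _
      rw [eval_mk_eq_zero (hg x)]
      exact hg')
    rw [hφ', hφp, Projectivization.mk_eq_mk_iff']
    obtain ⟨b, hb, hrep, -⟩ := eval_mk_rep (hF x j₀) hv'0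
    refine ⟨b ^ d x * eval v' (F x j₀) * (eval p.1.rep (F x j₀))⁻¹, ?_⟩
    funext j
    simp only [Pi.smul_apply, smul_eq_mul]
    rw [hrep, eval_smul (hF x j), hz3 j, hy]
    ring
  · change ht (Projectivization.mk Qbar v' hv'0) ≤ _
    rw [ht_mk]
    have hs1 := ht_le_sum v'
    have h2 : ht (φ p) = absLogHeight y := by
      rw [hφp, ht_mk]
      have : y = (eval p.1.rep (F x j₀))⁻¹ • (fun j => eval p.1.rep (F x j)) := by
        funext j
        rw [hy]
        rfl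
      rw [this, absLogHeight_smul _ (inv_ne_zero hj₀)]
    have h3 : ∀ j, h1 (y j) ≤ ht (φ p) := fun j => by
      rw [h2]
      exact aff_le_of_eq_one y j₀ hyj₀ j
    have h4 : ∑ j, h1 (y j) ≤ ((M + 1 : ℕ) : ℝ) * ht (φ p) := by
      refine (Finset.sum_le_sum fun j _ => h3 j).trans ?_
      rw [Finset.sum_const, Finset.card_univ, Fintype.card_fin, nsmul_eq_mul]
    have h0 : 0 ≤ ht (φ p) := ht_nonneg _
    have h5 : ∀ i, h1 (v' i) ≤ |C x q i₀ j₀| * (((M + 1 : ℕ) : ℝ) * (1 + ht (φ p))) := by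
      intro i
      refine (hzC (some i)).trans ?_
      have h6 : 0 ≤ ∑ j, h1 (y j) := Finset.sum_nonneg fun j _ => h1_nonneg _
      have h7 : (1 : ℝ) ≤ ((M + 1 : ℕ) : ℝ) := by exact_mod_cast Nat.le_add_left 1 M
      calc C x q i₀ j₀ * (1 + ∑ j, h1 (y j)) ≤ |C x q i₀ j₀| * (1 + ∑ j, h1 (y j)) :=
            mul_le_mul_of_nonneg_right (le_abs_self _) (by linarith)
        _ ≤ _ := by
            apply mul_le_mul_of_nonneg_left _ (abs_nonneg _)
            rw [mul_add, mul_one]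
            linarith
    have h8 : ∑ i, h1 (v' i) ≤ ((N + 1 : ℕ) : ℝ) * |C x q i₀ j₀| * ((M + 1 : ℕ) : ℝ) * (1 + ht (φ p)) := by
      refine (Finset.sum_le_sum fun i _ => h5 i).trans ?_
      rw [Finset.sum_const, Finset.card_univ, Fintype.card_fin, nsmul_eq_mul]
      apply le_of_eq
      ring
    refine (hs1.trans h8).trans ?_
    apply mul_le_mul_of_nonneg_right _ (by linarith)
    have n0 : ∀ x q i₀ j₀, 0 ≤ ((N + 1 : ℕ) : ℝ) * |C x q i₀ j₀| * ((M + 1 : ℕ) : ℝ) := fun x q i₀ j₀ => by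
      positivity
    refine le_trans ?_ (Finset.single_le_sum (f := fun x => ∑ q ∈ TW, ∑ i₀, ∑ j₀,
      ((N + 1 : ℕ) : ℝ) * |C x q i₀ j₀| * ((M + 1 : ℕ) : ℝ)) (fun x _ => Finset.sum_nonneg fun q _ =>
        Finset.sum_nonneg fun i _ => Finset.sum_nonneg fun j _ => n0 x q i j) hxT)
    refine le_trans ?_ (Finset.single_le_sum (f := fun q => ∑ i₀, ∑ j₀,
      ((N + 1 : ℕ) : ℝ) * |C x q i₀ j₀| * ((M + 1 : ℕ) : ℝ)) (fun q _ =>
        Finset.sum_nonneg fun i _ => Finset.sum_nonneg fun j _ => n0 x q i j) hqT)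
    refine le_trans ?_ (Finset.single_le_sum (f := fun i₀ => ∑ j₀,
      ((N + 1 : ℕ) : ℝ) * |C x q i₀ j₀| * ((M + 1 : ℕ) : ℝ)) (fun i _ =>
        Finset.sum_nonneg fun j _ => n0 x q i j) (Finset.mem_univ i₀))
    exact Finset.single_le_sum (f := fun j₀ =>
      ((N + 1 : ℕ) : ℝ) * |C x q i₀ j₀| * ((M + 1 : ℕ) : ℝ)) (fun j _ => n0 x q i₀ j) (Finset.mem_univ j₀)

/-- ample heights are comparable with the height of the given embedding -/
lemma ample_comparable {X : Set (PP N)} {h : X → ℝ} (hh : IsAmpleHeight X h) :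
    ∃ A B : ℝ, 0 < A ∧ 0 ≤ B ∧ ∀ x : X, h x ≤ A * (1 + ht x.1) ∧ ht x.1 ≤ A * h x + B ∧ -B ≤ h x := by
  obtain ⟨M, φ, ⟨hφ, -, ψ, hψ, hψφ⟩, c, hc, C, hC⟩ := hh
  obtain ⟨C₁, hC₁0, hC₁⟩ := ht_le hφ
  obtain ⟨C₂, hC₂0, hC₂⟩ := ht_le hψ
  set Q := C₂ / c with hQ
  have hQ0 : 0 ≤ Q := by positivity
  have hQc : Q * c = C₂ := by rw [hQ]; field_simp
  have hcC : 0 ≤ c * C₁ := by positivity
  set A := |C| + c * C₁ + Q + 1 with hA
  have hC0 := abs_nonneg C
  have hA0 : 0 < A := by positivity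
  refine ⟨A, C₂ + Q * |C| + A * |C| + |C|, hA0, by positivity, fun x => ?_⟩
  have h1 := abs_le.1 (hC x)
  have h2 := hC₁ x
  have h3 := hC₂ ⟨φ x, x, rfl⟩
  rw [hψφ x] at h3
  have h4 : 0 ≤ ht x.1 := ht_nonneg _
  have h5 : 0 ≤ ht (φ x) := ht_nonneg _
  have h6 := le_abs_self C
  have h9 : c * ht (φ x) ≤ c * C₁ * (1 + ht x.1) := by
    rw [mul_assoc]
    exact mul_le_mul_of_nonneg_left h2 hc.le
  have h10 : 0 ≤ c * ht (φ x) := by positivity
  have h11 : 0 ≤ h x + |C| := by linarith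
  refine ⟨?_, ?_, ?_⟩
  · have e1 : h x ≤ |C| + c * C₁ * (1 + ht x.1) := by linarith
    have e2 : 0 ≤ |C| * ht x.1 := by positivity
    have e3 : 0 ≤ (Q + 1) * (1 + ht x.1) := by positivity
    rw [hA]
    linarith
  · have e1 : C₂ * ht (φ x) ≤ Q * (h x + |C|) := by
      rw [← hQc, mul_assoc]
      exact mul_le_mul_of_nonneg_left (by linarith) hQ0
    have e2 : 0 ≤ (|C| + c * C₁ + 1) * (h x + |C|) := by positivity
    have e3 : ht x.1 ≤ C₂ + Q * (h x + |C|) := by linarith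
    have e4 : A * h x + A * |C| = Q * (h x + |C|) + (|C| + c * C₁ + 1) * (h x + |C|) := by
      rw [hA]; ring
    have e5 : 0 ≤ Q * |C| := by positivity
    linarith
  · have e5 : 0 ≤ Q * |C| := by positivity
    have e6 : 0 ≤ A * |C| := by positivity
    linarith

/-- **Ample heights and orbits**, for a morphism whose fibres are the orbits. -/
theorem orbit_heights {X : Set (PP N)} {Y : Set (PP M)} (hX : IsQuasiProjective X) {G : Type*}
    [Nonempty G] (act : G → X → X) {π : X → Y} (hπ : IsRegular fun x => (π x : PP M))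
    (horb : ∀ x x' : X, π x = π x' ↔ ∃ g : G, act g x = x') {hX' : X → ℝ} {hY' : Y → ℝ}
    (hhX : IsAmpleHeight X hX') (hhY : IsAmpleHeight Y hY') :
    (∀ x : X, BddBelow (Set.range fun g : G => hX' (act g x))) ∧
      ∃ c₁ c₂ c₃ c₄ : ℝ, 0 < c₁ ∧ 0 < c₂ ∧ ∀ x : X,
        c₁ * hY' (π x) - c₃ ≤ ⨅ g : G, hX' (act g x) ∧
          ⨅ g : G, hX' (act g x) ≤ c₂ * hY' (π x) + c₄ := by
  obtain ⟨A, B, hA, hB, hAB⟩ := ample_comparable hhX
  obtain ⟨A', B', hA', hB', hAB'⟩ := ample_comparable hhY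
  obtain ⟨C, hC0, hC⟩ := ht_le hπ
  obtain ⟨D, hD0, hD⟩ := exists_small hX hπ
  have hbdd : ∀ x : X, BddBelow (Set.range fun g : G => hX' (act g x)) := by
    intro x
    refine ⟨-B, ?_⟩
    rintro _ ⟨g, rfl⟩
    exact (hAB _).2.2
  refine ⟨hbdd, ?_⟩
  -- `hY (π x) ≤ A' (1 + C (1 + A hX (x) + B))`
  refine ⟨1 / (A' * (C + 1) * A), A * D * A' + 1, 1 / (A' * (C + 1) * A) * (A' * (1 + (C + 1) * (1 + B))),
    A + A * D + A * D * B' + |(1 : ℝ)| * B', by positivity, by positivity, fun x => ⟨?_, ?_⟩⟩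
  · refine le_ciInf fun g => ?_
    have e1 : π (act g x) = π x := ((horb x (act g x)).2 ⟨g, rfl⟩).symm
    have h1 := (hAB' (π x)).1
    have h2 := hC (act g x)
    rw [e1] at h2
    have h3 := (hAB (act g x)).2.1
    have h4 : 0 ≤ ht (act g x).1 := ht_nonneg _
    have h5 : hY' (π x) ≤ A' * (1 + (C + 1) * (1 + (A * hX' (act g x) + B))) := by
      refine h1.trans (mul_le_mul_of_nonneg_left ?_ hA'.le)
      have : C * (1 + ht (act g x).1) ≤ (C + 1) * (1 + (A * hX' (act g x) + B)) := by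
        have e : C * (1 + ht (act g x).1) ≤ (C + 1) * (1 + ht (act g x).1) := by
          apply mul_le_mul_of_nonneg_right _ (by linarith)
          linarith
        exact e.trans (mul_le_mul_of_nonneg_left (by linarith) (by linarith))
      linarith
    have hp : 0 < A' * (C + 1) * A := by positivity
    rw [← mul_sub, div_mul_eq_mul_div, one_mul, div_le_iff₀ hp]
    nlinarith
  · obtain ⟨x', hx', hx'2⟩ := hD x
    obtain ⟨g, hg⟩ := (horb x x').1 (Subtype.ext hx'.symm)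
    refine (ciInf_le (hbdd x) g).trans ?_
    rw [hg]
    have h1 := (hAB x').1
    have h2 := (hAB' (π x)).2.1
    have h3 := (hAB' (π x)).2.2
    have h4 : A * (1 + ht x'.1) ≤ A * (1 + D * (1 + (A' * hY' (π x) + B'))) := by
      apply mul_le_mul_of_nonneg_left _ hA.le
      have : D * (1 + ht (π x : PP M)) ≤ D * (1 + (A' * hY' (π x) + B')) :=
        mul_le_mul_of_nonneg_left (by linarith) hD0
      linarith
    rw [abs_one, one_mul]
    nlinarith

end basic

end Pool.Agent.J4.H22.QP
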