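import Mathlib
import Pool.Agent.J4.H22.QP

/-!
# The space of the rational maps of degree `d` of the projective line, and conjugation
-/

set_option autoImplicit false

namespace Pool.Agent.J4.H22.RatD

open MvPolynomial Pool.Agent.Helper259.AbsHt Pool.Agent.J4.H22.BddSol Pool.Agent.J4.H22.QP

variable {d : ℕ}

/-- The numerator `∑ a_i X ^ i Y ^ (d - i)` of the rational map with the coefficient vector
`v = (a_0, …, a_d, b_0, …, b_d)`. -/
noncomputable def num (v : Fin (2 * d + 1 + 1) → Qbar) : MvPolynomial (Fin 2) Qbar :=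
  ∑ i : Fin (d + 1), C (v ⟨i, by omega⟩) * X 0 ^ (i : ℕ) * X 1 ^ (d - i)

/-- The denominator `∑ b_i X ^ i Y ^ (d - i)` of the rational map with the coefficient vector
`v = (a_0, …, a_d, b_0, …, b_d)`. -/
noncomputable def den (v : Fin (2 * d + 1 + 1) → Qbar) : MvPolynomial (Fin 2) Qbar :=
  ∑ i : Fin (d + 1), C (v ⟨d + 1 + i, by omega⟩) * X 0 ^ (i : ℕ) * X 1 ^ (d - i)

variable (d) in
/-- The space `Rat_d ⊂ ℙ ^ (2 d + 1)` of the rational maps of degree `d` of the projective line: the
coefficient vectors `[a_0 : … : a_d : b_0 : … : b_d]` for which numerator and denominator have no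
common zero on the projective line. -/
def Rat : Set (PP (2 * d + 1)) :=
  {p | ∀ z : Fin 2 → Qbar, z ≠ 0 → eval z (num p.rep) ≠ 0 ∨ eval z (den p.rep) ≠ 0}

/-- The form `F (A (X, Y))`. -/
noncomputable def subst (A : Matrix (Fin 2) (Fin 2) Qbar) (F : MvPolynomial (Fin 2) Qbar) :
    MvPolynomial (Fin 2) Qbar :=
  aeval (fun i => C (A i 0) * X 0 + C (A i 1) * X 1) F

/-- The vector of the coefficients of a pair of binary forms of degree `d`. -/
noncomputable def vec (F G : MvPolynomial (Fin 2) Qbar) : Fin (2 * d + 1 + 1) → Qbar := fun k =>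
  if (k : ℕ) ≤ d then coeff (Finsupp.single 0 (k : ℕ) + Finsupp.single 1 (d - k)) F
  else coeff (Finsupp.single 0 (k - (d + 1) : ℕ) + Finsupp.single 1 (d - (k - (d + 1)))) G

/-- The forms of `A⁻¹ ∘ f ∘ A`, where `f = (F : G)` is the rational map with the coefficient vector
`v`: the components of `A⁻¹ (F (A (X, Y)), G (A (X, Y)))`. -/
noncomputable def conjForm (A : GL (Fin 2) Qbar) (v : Fin (2 * d + 1 + 1) → Qbar) (i : Fin 2) :
    MvPolynomial (Fin 2) Qbar :=
  C ((A⁻¹ : GL (Fin 2) Qbar) i 0) * subst A (num v) + C ((A⁻¹ : GL (Fin 2) Qbar) i 1) * subst A (den v)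

lemma num_homog (v : Fin (2 * d + 1 + 1) → Qbar) : (num v).IsHomogeneous d := by
  refine IsHomogeneous.sum _ _ _ fun i _ => ?_
  have h := ((isHomogeneous_C (Fin 2) (v ⟨i, by omega⟩)).mul
    ((isHomogeneous_X Qbar (0 : Fin 2)).pow (i : ℕ))).mul ((isHomogeneous_X Qbar (1 : Fin 2)).pow (d - i))
  have e : 0 + 1 * (i : ℕ) + 1 * (d - i) = d := by have := i.2; omega
  rwa [e] at h

lemma den_homog (v : Fin (2 * d + 1 + 1) → Qbar) : (den v).IsHomogeneous d := by
  refine IsHomogeneous.sum _ _ _ fun i _ => ?_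
  have h := ((isHomogeneous_C (Fin 2) (v ⟨d + 1 + i, by omega⟩)).mul
    ((isHomogeneous_X Qbar (0 : Fin 2)).pow (i : ℕ))).mul ((isHomogeneous_X Qbar (1 : Fin 2)).pow (d - i))
  have e : 0 + 1 * (i : ℕ) + 1 * (d - i) = d := by have := i.2; omega
  rwa [e] at h

lemma subst_homog (A : Matrix (Fin 2) (Fin 2) Qbar) {F : MvPolynomial (Fin 2) Qbar}
    (hF : F.IsHomogeneous d) : (subst A F).IsHomogeneous d := by
  have h := hF.aeval (τ := Fin 2) (fun i => C (A i 0) * X 0 + C (A i 1) * X 1) (n := 1) (fun i => by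
    have h0 := (isHomogeneous_C (Fin 2) (A i 0)).mul (isHomogeneous_X Qbar (0 : Fin 2))
    have h1 := (isHomogeneous_C (Fin 2) (A i 1)).mul (isHomogeneous_X Qbar (1 : Fin 2))
    exact h0.add h1)
  rwa [one_mul] at h

lemma conjForm_homog (A : GL (Fin 2) Qbar) (v : Fin (2 * d + 1 + 1) → Qbar) (i : Fin 2) :
    (conjForm A v i).IsHomogeneous d := by
  have h0 := (isHomogeneous_C (Fin 2) ((A⁻¹ : GL (Fin 2) Qbar) i 0)).mul (subst_homog (A : Matrix _ _ _) (num_homog v))
  have h1 := (isHomogeneous_C (Fin 2) ((A⁻¹ : GL (Fin 2) Qbar) i 1)).mul (subst_homog (A : Matrix _ _ _) (den_homog v))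
  rw [zero_add] at h0 h1
  exact h0.add h1

lemma eval_subst (A : Matrix (Fin 2) (Fin 2) Qbar) (F : MvPolynomial (Fin 2) Qbar) (z : Fin 2 → Qbar) :
    eval z (subst A F) = eval (A.mulVec z) F := by
  unfold subst
  rw [aeval_def, ← coe_eval₂Hom, ← RingHom.comp_apply]
  congr 1
  apply MvPolynomial.ringHom_ext
  · intro a; simp
  · intro i
    fin_cases i <;> simp

lemma coeff_num (v : Fin (2 * d + 1 + 1) → Qbar) (i : ℕ) (hi : i ≤ d) :
    coeff (Finsupp.single 0 i + Finsupp.single 1 (d - i)) (num v) = v ⟨i, by omega⟩ := by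
  unfold num
  rw [coeff_sum, Finset.sum_eq_single ⟨i, by omega⟩]
  · simp only
    rw [show (C (v ⟨i, by omega⟩) * X 0 ^ i * X 1 ^ (d - i) : MvPolynomial (Fin 2) Qbar) =
      monomial (Finsupp.single 0 i + Finsupp.single 1 (d - i)) (v ⟨i, by omega⟩) by
        rw [← one_mul (v _), monomial_add_single, ← C_mul_X_pow_eq_monomial]]
    rw [coeff_monomial, if_pos rfl]
  · intro j _ hj
    rw [show (C (v ⟨j, by omega⟩) * X 0 ^ (j : ℕ) * X 1 ^ (d - j) : MvPolynomial (Fin 2) Qbar) =
      monomial (Finsupp.single 0 (j : ℕ) + Finsupp.single 1 (d - j)) (v ⟨j, by omega⟩) by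
        rw [← one_mul (v _), monomial_add_single, ← C_mul_X_pow_eq_monomial]]
    rw [coeff_monomial, if_neg]
    intro h
    apply hj
    have := DFunLike.congr_fun h 0
    simp at this
    exact Fin.ext this
  · intro h
    exact absurd (Finset.mem_univ _) h

lemma coeff_den (v : Fin (2 * d + 1 + 1) → Qbar) (i : ℕ) (hi : i ≤ d) :
    coeff (Finsupp.single 0 i + Finsupp.single 1 (d - i)) (den v) = v ⟨d + 1 + i, by omega⟩ := by
  unfold den
  rw [coeff_sum, Finset.sum_eq_single ⟨i, by omega⟩]
  · simp only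
    rw [show (C (v ⟨d + 1 + i, by omega⟩) * X 0 ^ i * X 1 ^ (d - i) : MvPolynomial (Fin 2) Qbar) =
      monomial (Finsupp.single 0 i + Finsupp.single 1 (d - i)) (v ⟨d + 1 + i, by omega⟩) by
        rw [← one_mul (v _), monomial_add_single, ← C_mul_X_pow_eq_monomial]]
    rw [coeff_monomial, if_pos rfl]
  · intro j _ hj
    rw [show (C (v ⟨d + 1 + j, by omega⟩) * X 0 ^ (j : ℕ) * X 1 ^ (d - j) : MvPolynomial (Fin 2) Qbar) =
      monomial (Finsupp.single 0 (j : ℕ) + Finsupp.single 1 (d - j)) (v ⟨d + 1 + j, by omega⟩) by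
        rw [← one_mul (v _), monomial_add_single, ← C_mul_X_pow_eq_monomial]]
    rw [coeff_monomial, if_neg]
    intro h
    apply hj
    have := DFunLike.congr_fun h 0
    simp at this
    exact Fin.ext this
  · intro h
    exact absurd (Finset.mem_univ _) h

lemma homog_ext {F G : MvPolynomial (Fin 2) Qbar} (hF : F.IsHomogeneous d) (hG : G.IsHomogeneous d)
    (h : ∀ i ≤ d, coeff (Finsupp.single 0 i + Finsupp.single 1 (d - i)) F =
      coeff (Finsupp.single 0 i + Finsupp.single 1 (d - i)) G) : F = G := by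
  ext s
  by_cases hs : s.degree = d
  · have hsum : s 0 + s 1 = d := by
      rw [← hs, Finsupp.degree_eq_sum, Fin.sum_univ_two]
    have e : s = Finsupp.single 0 (s 0) + Finsupp.single 1 (d - s 0) := by
      ext i
      fin_cases i
      · simp
      · simp
        omega
    rw [e]
    have := h (s 0) (by omega)
    simpa using this
  · rw [hF.coeff_eq_zero hs, hG.coeff_eq_zero hs]

lemma num_vec {F G : MvPolynomial (Fin 2) Qbar} (hF : F.IsHomogeneous d) : num (vec (d := d) F G) = F := by
  refine homog_ext (num_homog _) hF fun i hi => ?_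
  rw [coeff_num _ i hi]
  unfold vec
  rw [if_pos hi]

lemma den_vec {F G : MvPolynomial (Fin 2) Qbar} (hG : G.IsHomogeneous d) : den (vec (d := d) F G) = G := by
  refine homog_ext (den_homog _) hG fun i hi => ?_
  rw [coeff_den _ i hi]
  unfold vec
  rw [if_neg (by simp only; omega)]
  simp only [Nat.add_sub_cancel_left]

lemma num_smul (a : Qbar) (v : Fin (2 * d + 1 + 1) → Qbar) : num (a • v) = C a * num v := by
  unfold num
  rw [Finset.mul_sum]
  refine Finset.sum_congr rfl fun i _ => ?_
  simp only [Pi.smul_apply, smul_eq_mul, map_mul]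
  ring

lemma den_smul (a : Qbar) (v : Fin (2 * d + 1 + 1) → Qbar) : den (a • v) = C a * den v := by
  unfold den
  rw [Finset.mul_sum]
  refine Finset.sum_congr rfl fun i _ => ?_
  simp only [Pi.smul_apply, smul_eq_mul, map_mul]
  ring

/-- no common zero -/
def NCZ (v : Fin (2 * d + 1 + 1) → Qbar) : Prop :=
  ∀ z : Fin 2 → Qbar, z ≠ 0 → eval z (num v) ≠ 0 ∨ eval z (den v) ≠ 0

lemma mem_Rat {p : PP (2 * d + 1)} : p ∈ Rat d ↔ NCZ p.rep := Iff.rfl

lemma ncz_smul {a : Qbar} (ha : a ≠ 0) {v : Fin (2 * d + 1 + 1) → Qbar} : NCZ (a • v) ↔ NCZ v := by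
  unfold NCZ
  simp only [num_smul, den_smul, map_mul, eval_C, ne_eq, mul_eq_zero, ha, false_or]

lemma mk_mem_Rat {v : Fin (2 * d + 1 + 1) → Qbar} (hv : v ≠ 0) :
    Projectivization.mk Qbar v hv ∈ Rat d ↔ NCZ v := by
  obtain ⟨a, ha⟩ := Projectivization.exists_smul_eq_mk_rep Qbar v hv
  rw [mem_Rat, ← ha]
  exact ncz_smul a.ne_zero

lemma ncz_conj (A : GL (Fin 2) Qbar) {v : Fin (2 * d + 1 + 1) → Qbar} (hv : NCZ v) :
    NCZ (vec (d := d) (conjForm A v 0) (conjForm A v 1)) := by
  intro z hz
  rw [num_vec (conjForm_homog A v 0), den_vec (conjForm_homog A v 1)]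
  by_contra hcon
  push Not at hcon
  obtain ⟨h0, h1⟩ := hcon
  set w : Fin 2 → Qbar := (A : Matrix (Fin 2) (Fin 2) Qbar).mulVec z with hw
  have hw0 : w ≠ 0 := by
    intro h
    apply hz
    have := congrArg ((A⁻¹ : GL (Fin 2) Qbar) : Matrix (Fin 2) (Fin 2) Qbar).mulVec h
    rw [hw, Matrix.mulVec_mulVec, Matrix.mulVec_zero] at this
    rwa [← Units.val_mul, inv_mul_cancel, Units.val_one, Matrix.one_mulVec] at this
  set u : Fin 2 → Qbar := ![eval w (num v), eval w (den v)] with hu
  have hu0 : ((A⁻¹ : GL (Fin 2) Qbar) : Matrix (Fin 2) (Fin 2) Qbar).mulVec u = 0 := by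
    funext i
    have e : ∀ i, eval z (conjForm A v i) =
        (((A⁻¹ : GL (Fin 2) Qbar) : Matrix (Fin 2) (Fin 2) Qbar).mulVec u) i := by
      intro i
      unfold conjForm
      rw [map_add, map_mul, map_mul, eval_C, eval_C, eval_subst, eval_subst, Matrix.mulVec, dotProduct,
        Fin.sum_univ_two, hu]
      simp [hw]
    fin_cases i
    · exact (e 0).symm.trans h0
    · exact (e 1).symm.trans h1
  have hu1 : u = 0 := by
    have := congrArg (A : Matrix (Fin 2) (Fin 2) Qbar).mulVec hu0
    rwa [Matrix.mulVec_mulVec, Matrix.mulVec_zero, ← Units.val_mul, mul_inv_cancel, Units.val_one,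
      Matrix.one_mulVec] at this
  rcases hv w hw0 with h | h
  · exact h (by simpa [hu] using congrFun hu1 0)
  · exact h (by simpa [hu] using congrFun hu1 1)

lemma NCZ.ne_zero {v : Fin (2 * d + 1 + 1) → Qbar} (hv : NCZ v) : v ≠ 0 := by
  rintro rfl
  have h := hv (fun _ => 1) (by intro h; simpa using congrFun h 0)
  have h1 : num (0 : Fin (2 * d + 1 + 1) → Qbar) = 0 := by
    unfold num; simp
  have h2 : den (0 : Fin (2 * d + 1 + 1) → Qbar) = 0 := by
    unfold den; simp
  rw [h1, h2] at h
  simp at h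

/-- The conjugate `f ^ A = A⁻¹ ∘ f ∘ A` of a rational map `f` of degree `d` by `A ∈ GL_2`. -/
noncomputable def conj (A : GL (Fin 2) Qbar) (f : Rat d) : Rat d :=
  ⟨Projectivization.mk Qbar (vec (conjForm A f.1.rep 0) (conjForm A f.1.rep 1))
    (ncz_conj A f.2).ne_zero, (mk_mem_Rat _).2 (ncz_conj A f.2)⟩

/-! ### `Rat_d` is open -/

/-- dehomogenized numerator -/
noncomputable def pnum {R : Type*} [CommRing R] (v : Fin (2 * d + 1 + 1) → R) : Polynomial R :=
  ∑ i : Fin (d + 1), Polynomial.C (v ⟨i, by omega⟩) * Polynomial.X ^ (i : ℕ)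

/-- dehomogenized denominator -/
noncomputable def pden {R : Type*} [CommRing R] (v : Fin (2 * d + 1 + 1) → R) : Polynomial R :=
  ∑ i : Fin (d + 1), Polynomial.C (v ⟨d + 1 + i, by omega⟩) * Polynomial.X ^ (i : ℕ)

lemma coeff_sum_C {R : Type*} [CommRing R] (a : Fin (d + 1) → R) (k : ℕ) :
    (∑ i : Fin (d + 1), Polynomial.C (a i) * Polynomial.X ^ (i : ℕ)).coeff k =
      if h : k < d + 1 then a ⟨k, h⟩ else 0 := by
  rw [Polynomial.finsetSum_coeff]
  simp only [Polynomial.coeff_C_mul_X_pow]
  split_ifs with h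
  · rw [Finset.sum_eq_single ⟨k, h⟩]
    · simp
    · intro j _ hj
      rw [if_neg]
      intro hk
      exact hj (Fin.ext hk.symm)
    · intro h; exact absurd (Finset.mem_univ _) h
  · refine Finset.sum_eq_zero fun i _ => ?_
    rw [if_neg]
    have := i.2
    omega

lemma natDegree_sum_C {R : Type*} [CommRing R] (a : Fin (d + 1) → R) :
    (∑ i : Fin (d + 1), Polynomial.C (a i) * Polynomial.X ^ (i : ℕ)).natDegree ≤ d := by
  rw [Polynomial.natDegree_le_iff_coeff_eq_zero]
  intro k hk
  rw [coeff_sum_C, dif_neg (by omega)]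

/-- evaluation of a binary form -/
lemma eval_form (a : Fin (d + 1) → Qbar) (z : Fin 2 → Qbar) (hz : z 1 ≠ 0) :
    ∑ i : Fin (d + 1), a i * z 0 ^ (i : ℕ) * z 1 ^ (d - i) =
      z 1 ^ d * (∑ i : Fin (d + 1), Polynomial.C (a i) * Polynomial.X ^ (i : ℕ)).eval (z 0 / z 1) := by
  rw [Polynomial.eval_finsetSum, Finset.mul_sum]
  refine Finset.sum_congr rfl fun i _ => ?_
  simp only [Polynomial.eval_mul, Polynomial.eval_C, Polynomial.eval_pow, Polynomial.eval_X]
  have h : z 1 ^ d = z 1 ^ (i : ℕ) * z 1 ^ (d - i) := by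
    rw [← pow_add]
    congr 1
    have := i.2
    omega
  rw [h, div_pow]
  field_simp

lemma eval_form_zero (a : Fin (d + 1) → Qbar) (z : Fin 2 → Qbar) (hz : z 1 = 0) :
    ∑ i : Fin (d + 1), a i * z 0 ^ (i : ℕ) * z 1 ^ (d - i) = a (Fin.last d) * z 0 ^ d := by
  rw [Finset.sum_eq_single (Fin.last d)]
  · simp
  · intro i _ hi
    rw [hz, zero_pow, mul_zero]
    have h1 := i.2
    have h2 : (i : ℕ) ≠ d := fun h => hi (Fin.ext h)
    omega
  · intro h; exact absurd (Finset.mem_univ _) h

lemma eval_num (v : Fin (2 * d + 1 + 1) → Qbar) (z : Fin 2 → Qbar) :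
    eval z (num v) = ∑ i : Fin (d + 1), v ⟨i, by omega⟩ * z 0 ^ (i : ℕ) * z 1 ^ (d - i) := by
  unfold num
  simp

lemma eval_den (v : Fin (2 * d + 1 + 1) → Qbar) (z : Fin 2 → Qbar) :
    eval z (den v) = ∑ i : Fin (d + 1), v ⟨d + 1 + i, by omega⟩ * z 0 ^ (i : ℕ) * z 1 ^ (d - i) := by
  unfold den
  simp

/-- a pair of polynomials of degree at most `d` -/
lemma res_zero_aux (hd : 0 < d) {f g : Polynomial Qbar} (hf : f.natDegree = d) (hg : g.natDegree ≤ d)
    (h : Polynomial.resultant f g d d = 0) : ∃ s : Qbar, f.eval s = 0 ∧ g.eval s = 0 := by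
  have hf0 : f ≠ 0 := by
    rintro rfl
    simp at hf
    omega
  obtain ⟨k, hk⟩ : ∃ k, d = g.natDegree + k := ⟨d - g.natDegree, by omega⟩
  have h2 : Polynomial.resultant f g f.natDegree g.natDegree = 0 := by
    have h3 := Polynomial.resultant_add_right_deg f g d g.natDegree k le_rfl
    rw [← hk, h] at h3
    have h4 : f.coeff d ≠ 0 := by
      rw [← hf]
      exact Polynomial.leadingCoeff_ne_zero.2 hf0
    rw [hf]
    rcases mul_eq_zero.1 h3.symm with h5 | h5
    · exact absurd h5 (pow_ne_zero _ h4)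
    · exact h5
  rw [Polynomial.resultant_eq_zero_iff] at h2
  have h3 := h2.2
  by_contra hcon
  push Not at hcon
  apply h3
  rw [Polynomial.isCoprime_iff_aeval_ne_zero_of_isAlgClosed Qbar Qbar]
  intro s
  by_contra hs
  push Not at hs
  simp only [Polynomial.coe_aeval_eq_eval] at hs
  exact hcon s hs.1 hs.2

lemma ncz_iff (hd : 0 < d) (v : Fin (2 * d + 1 + 1) → Qbar) :
    NCZ v ↔ Polynomial.resultant (pnum v) (pden v) d d ≠ 0 := by
  have hF : (pnum v).natDegree ≤ d := natDegree_sum_C _
  have hG : (pden v).natDegree ≤ d := natDegree_sum_C _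
  have hFd : (pnum v).coeff d = v ⟨d, by omega⟩ := by
    unfold pnum
    rw [coeff_sum_C, dif_pos (by omega)]
  have hGd : (pden v).coeff d = v ⟨d + 1 + d, by omega⟩ := by
    unfold pden
    rw [coeff_sum_C (fun i : Fin (d + 1) => v ⟨d + 1 + i, by omega⟩), dif_pos (by omega)]
  constructor
  · intro h hres
    -- a common zero
    by_cases h1 : (pnum v).natDegree = d
    · obtain ⟨s, hs1, hs2⟩ := res_zero_aux hd h1 hG hres
      rcases h ![s, 1] (by intro h; simpa using congrFun h 1) with h2 | h2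
      · apply h2
        rw [eval_num, eval_form (fun i : Fin (d + 1) => v ⟨i, by omega⟩) _ (by simp)]
        simp only [Matrix.cons_val_zero, Matrix.cons_val_one, div_one]
        rw [show (∑ i : Fin (d + 1), Polynomial.C (v ⟨i, by omega⟩) * Polynomial.X ^ (i : ℕ)) = pnum v from rfl,
          hs1, mul_zero]
      · apply h2
        rw [eval_den, eval_form (fun i : Fin (d + 1) => v ⟨d + 1 + i, by omega⟩) _ (by simp)]
        simp only [Matrix.cons_val_zero, Matrix.cons_val_one, div_one]
        rw [show (∑ i : Fin (d + 1), Polynomial.C (v ⟨d + 1 + i, by omega⟩) * Polynomial.X ^ (i : ℕ)) = pden v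
          from rfl, hs2, mul_zero]
    · by_cases h1' : (pden v).natDegree = d
      · have hres' : Polynomial.resultant (pden v) (pnum v) d d = 0 := by
          rw [Polynomial.resultant_comm, hres, mul_zero]
        obtain ⟨s, hs1, hs2⟩ := res_zero_aux hd h1' hF hres'
        rcases h ![s, 1] (by intro h; simpa using congrFun h 1) with h2 | h2
        · apply h2
          rw [eval_num, eval_form (fun i : Fin (d + 1) => v ⟨i, by omega⟩) _ (by simp)]
          simp only [Matrix.cons_val_zero, Matrix.cons_val_one, div_one]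
          rw [show (∑ i : Fin (d + 1), Polynomial.C (v ⟨i, by omega⟩) * Polynomial.X ^ (i : ℕ)) = pnum v from rfl,
            hs2, mul_zero]
        · apply h2
          rw [eval_den, eval_form (fun i : Fin (d + 1) => v ⟨d + 1 + i, by omega⟩) _ (by simp)]
          simp only [Matrix.cons_val_zero, Matrix.cons_val_one, div_one]
          rw [show (∑ i : Fin (d + 1), Polynomial.C (v ⟨d + 1 + i, by omega⟩) * Polynomial.X ^ (i : ℕ)) = pden v
            from rfl, hs1, mul_zero]
      · have e1 : v ⟨d, by omega⟩ = 0 := by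
          rw [← hFd]
          exact Polynomial.coeff_eq_zero_of_natDegree_lt (by omega)
        have e2 : v ⟨d + 1 + d, by omega⟩ = 0 := by
          rw [← hGd]
          exact Polynomial.coeff_eq_zero_of_natDegree_lt (by omega)
        rcases h ![1, 0] (by intro h; simpa using congrFun h 0) with h2 | h2
        · apply h2
          rw [eval_num, eval_form_zero (fun i : Fin (d + 1) => v ⟨i, by omega⟩) _ (by simp)]
          simp [e1]
        · apply h2
          rw [eval_den, eval_form_zero (fun i : Fin (d + 1) => v ⟨d + 1 + i, by omega⟩) _ (by simp)]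
          simp [e2]
  · intro hres z hz
    by_contra hcon
    push Not at hcon
    obtain ⟨h1, h2⟩ := hcon
    apply hres
    by_cases hz1 : z 1 = 0
    · have hz0 : z 0 ≠ 0 := by
        intro h
        apply hz
        funext i
        fin_cases i
        · exact h
        · exact hz1
      rw [eval_num, eval_form_zero (fun i : Fin (d + 1) => v ⟨i, by omega⟩) _ hz1] at h1
      rw [eval_den, eval_form_zero (fun i : Fin (d + 1) => v ⟨d + 1 + i, by omega⟩) _ hz1] at h2
      have e1 : (pnum v).coeff d = 0 := by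
        rw [hFd]
        rcases mul_eq_zero.1 h1 with h | h
        · exact h
        · exact absurd h (pow_ne_zero _ hz0)
      have e2 : (pden v).coeff d = 0 := by
        rw [hGd]
        rcases mul_eq_zero.1 h2 with h | h
        · exact h
        · exact absurd h (pow_ne_zero _ hz0)
      have lt : ∀ f : Polynomial Qbar, f.natDegree ≤ d → f.coeff d = 0 → f.natDegree < d := by
        intro f hf hfd
        rcases hf.lt_or_eq with h | h
        · exact h
        · exfalso
          rw [← h] at hfd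
          have : f = 0 := Polynomial.leadingCoeff_eq_zero.1 hfd
          rw [this] at h
          simp at h
          omega
      exact Polynomial.resultant_eq_zero_of_lt_lt _ _ _ _ (lt _ hF e1) (lt _ hG e2)
    · rw [eval_num, eval_form (fun i : Fin (d + 1) => v ⟨i, by omega⟩) _ hz1] at h1
      rw [eval_den, eval_form (fun i : Fin (d + 1) => v ⟨d + 1 + i, by omega⟩) _ hz1] at h2
      have hp : z 1 ^ d ≠ 0 := pow_ne_zero _ hz1
      have e1 : (pnum v).eval (z 0 / z 1) = 0 := (mul_eq_zero.1 h1).resolve_left hp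
      have e2 : (pden v).eval (z 0 / z 1) = 0 := (mul_eq_zero.1 h2).resolve_left hp
      obtain ⟨p, q, -, -, hpq⟩ := Polynomial.exists_mul_add_mul_eq_C_resultant (pnum v) (pden v) hF hG
        (Or.inl hd.ne')
      have := congrArg (Polynomial.eval (z 0 / z 1)) hpq
      rw [Polynomial.eval_add, Polynomial.eval_mul, Polynomial.eval_mul, e1, e2, zero_mul, zero_mul,
        add_zero, Polynomial.eval_C] at this
      exact this.symm

variable (d) in
/-- the generic resultant -/
noncomputable def RR : MvPolynomial (Fin (2 * d + 1 + 1)) Qbar :=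
  Polynomial.resultant (pnum (d := d) (R := MvPolynomial (Fin (2 * d + 1 + 1)) Qbar) X) (pden X) d d

lemma eval_RR (v : Fin (2 * d + 1 + 1) → Qbar) :
    eval v (RR d) = Polynomial.resultant (pnum v) (pden v) d d := by
  unfold RR
  rw [← Polynomial.resultant_map_map]
  congr 1
  · unfold pnum
    rw [Polynomial.map_sum]
    refine Finset.sum_congr rfl fun i _ => ?_
    rw [Polynomial.map_mul, Polynomial.map_pow, Polynomial.map_X, Polynomial.map_C, eval_X]
  · unfold pden
    rw [Polynomial.map_sum]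
    refine Finset.sum_congr rfl fun i _ => ?_
    rw [Polynomial.map_mul, Polynomial.map_pow, Polynomial.map_X, Polynomial.map_C, eval_X]

lemma RR_homog : (RR d).IsHomogeneous (d + d) := by
  unfold RR Polynomial.resultant
  rw [Matrix.det_apply]
  refine IsHomogeneous.sum _ _ _ fun σ _ => ?_
  have hentry : ∀ i j, (Polynomial.sylvester (pnum (d := d) (R := MvPolynomial (Fin (2 * d + 1 + 1)) Qbar) X)
      (pden X) d d i j).IsHomogeneous 1 := by
    intro i j
    have hc1 : ∀ k, ((pnum (d := d) (R := MvPolynomial (Fin (2 * d + 1 + 1)) Qbar) X).coeff k).IsHomogeneous 1 := by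
      intro k
      unfold pnum
      rw [coeff_sum_C (fun i : Fin (d + 1) => (X ⟨i, by omega⟩ : MvPolynomial (Fin (2 * d + 1 + 1)) Qbar))]
      split_ifs
      · exact isHomogeneous_X _ _
      · exact isHomogeneous_zero _ _ _
    have hc2 : ∀ k, ((pden (d := d) (R := MvPolynomial (Fin (2 * d + 1 + 1)) Qbar) X).coeff k).IsHomogeneous 1 := by
      intro k
      unfold pden
      rw [coeff_sum_C (fun i : Fin (d + 1) => (X ⟨d + 1 + i, by omega⟩ : MvPolynomial (Fin (2 * d + 1 + 1)) Qbar))]
      split_ifs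
      · exact isHomogeneous_X _ _
      · exact isHomogeneous_zero _ _ _
    unfold Polynomial.sylvester
    rw [Matrix.of_apply]
    refine Fin.addCases (fun j => ?_) (fun j => ?_) j
    · rw [Fin.addCases_left]
      split_ifs
      · exact hc2 _
      · exact isHomogeneous_zero _ _ _
    · rw [Fin.addCases_right]
      split_ifs
      · exact hc1 _
      · exact isHomogeneous_zero _ _ _
  have h1 : (∏ i, Polynomial.sylvester (pnum (d := d) (R := MvPolynomial (Fin (2 * d + 1 + 1)) Qbar) X)
      (pden X) d d (σ i) i).IsHomogeneous (d + d) := by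
    have := IsHomogeneous.prod Finset.univ (fun i => Polynomial.sylvester
      (pnum (d := d) (R := MvPolynomial (Fin (2 * d + 1 + 1)) Qbar) X) (pden X) d d (σ i) i) (fun _ => 1)
      (fun i _ => hentry _ _)
    simpa using this
  rcases Int.units_eq_one_or (Equiv.Perm.sign σ) with h | h
  · rw [h, one_smul]
    exact h1
  · rw [h, Units.neg_smul, one_smul]
    exact h1.neg

/-- `Rat_d` is a quasi-projective variety -/
theorem quasiProjective_Rat (hd : 0 < d) : IsQuasiProjective (Rat d) := by
  refine ⟨Set.univ, {p | eval p.rep (RR d) = 0}, ⟨∅, by simp, by simp⟩, ⟨{RR d}, ?_, by simp⟩, ?_⟩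
  · intro f hf
    rw [Set.mem_singleton_iff] at hf
    exact ⟨d + d, hf ▸ RR_homog⟩
  · ext p
    rw [mem_Rat, ncz_iff hd, ← eval_RR]
    simp

/-- the identity is an embedding -/
lemma isAmple_ht {N : ℕ} {X : Set (PP N)} (hX : IsQuasiProjective X) :
    IsAmpleHeight X (fun x => ht x.1) := by
  have hreg : ∀ {Y : Set (PP N)}, IsRegular (fun y : Y => (y : PP N)) := by
    intro Y y
    refine ⟨∅, ⟨{1}, fun f hf => ⟨0, ?_⟩, ?_⟩, fun h => h, 1, MvPolynomial.X,
      fun j => isHomogeneous_X _ _, fun x _ => ?_⟩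
    · rw [Set.mem_singleton_iff] at hf
      rw [hf]
      exact isHomogeneous_one _ _
    · ext p
      simp
    · have e : (fun j => eval x.1.rep (MvPolynomial.X j)) = x.1.rep := by
        funext j
        rw [eval_X]
      refine ⟨by rw [e]; exact x.1.rep_nonzero, ?_⟩
      simp only [e]
      exact (Projectivization.mk_rep _).symm
  refine ⟨N, fun x => x.1, ⟨hreg, ?_, fun y => y.1, hreg, fun x => rfl⟩, 1, one_pos, 0, fun x => by simp⟩
  rw [Subtype.range_coe]
  exact hX

end Pool.Agent.J4.H22.RatD
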